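import Pool.Agent.Helper5.SX.St

/-!
# Project SX: module HBD (easy facts on the components)
-/

set_option autoImplicit false

namespace Pool.Agent.Helper16.SX

open _root_.SX
open Finset
open scoped Classical

theorem hHBD : StFCD → StCLC → StHBD := by
  intro hF hC V _ A c y l t0 t1 C L hfr B hB
  have hcomp := hfr.comp B hB
  have hfree := hfr.free B hB
  have hst := hfr.st.mx.st
  refine ⟨?_, ?_, ?_, ?_⟩
  · obtain ⟨x, hx⟩ := hcomp.ne
    have hxR : x ∈ Rp A c y l t0 B := hcomp.sub hx
    have hxe : exc A c y l x ≤ t0 := (mem_filter.1 hxR).2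
    have hcard : (Rp A c y l t0 B \ C B).card ≤ (Fb A c y l x).card := by
      refine card_le_card_of_injOn c ?_ ?_
      · intro x' hx'
        have hx'' := mem_sdiff.1 (mem_coe.1 hx')
        by_contra hne
        exact hx''.2 (hcomp.closed x hx x' hx''.1 (fun h => hne (mem_coe.2 h)))
      · intro v hv w hw hvw
        have hv' := (mem_sdiff.1 (mem_coe.1 hv)).1
        have hw' := (mem_sdiff.1 (mem_coe.1 hw)).1
        have hbv : A.b v = B := (mem_filter.1 (mem_filter.1 hv').1).2.1
        have hbw : A.b w = B := (mem_filter.1 (mem_filter.1 hw').1).2.1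
        exact hst.base.lab.inj v w (hbv.trans hbw.symm) hvw
    have := hF V A c y l x hst
    omega
  · have hdisj : Disjoint (Tn A c y l (C B)) (L B) := by
      rw [disjoint_left]
      intro z hz hzL
      exact hC V A c y l t0 t1 C L hfr B hB z hzL (mem_filter.1 hz).2
    rw [← card_union_of_disjoint hdisj]
    exact card_le_card (union_subset (filter_subset _ _) hfree.sub)
  · exact card_sdiff_add_card_eq_card hcomp.sub
  · have e1 : Tc A c y l (C B) = (Tn A c y l (C B)).filter (fun z => Crit A c y l z) := by
      ext z
      simp only [Tc, Tn, mem_filter, and_assoc]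
    have e2 : Tv A c y l (C B) = (Tn A c y l (C B)).filter (fun z => ¬ Crit A c y l z) := by
      ext z
      simp only [Tv, Tn, mem_filter, and_assoc]
    rw [e1, e2]
    exact (card_filter_add_card_filter_not _).symm

end Pool.Agent.Helper16.SX
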