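import Pool.Agent.Helper5.SX.St

/-!
# Project SX: module TRM (a terminal strong component exists)
-/

set_option autoImplicit false

namespace Pool.Agent.Helper16.SX

open _root_.SX
open Finset
open scoped Classical

theorem hTRM : StTRM := by
  intro V _ r X hX
  set S : Finset (Finset V) := X.powerset.filter
    (fun C => C.Nonempty ∧ ∀ x ∈ C, ∀ x' ∈ X, r x x' → x' ∈ C) with hS
  have hSne : S.Nonempty := by
    refine ⟨X, ?_⟩
    rw [hS, mem_filter, mem_powerset]
    exact ⟨Subset.refl _, hX, fun x _ x' hx' _ => hx'⟩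
  obtain ⟨C, hC, hmin⟩ := exists_min_image S Finset.card hSne
  rw [hS, mem_filter, mem_powerset] at hC
  obtain ⟨hCX, hCne, hCcl⟩ := hC
  refine ⟨C, hCX, hCne, hCcl, ?_⟩
  intro x hx x' hx'
  set Z : Finset V := C.filter (fun z => Relation.ReflTransGen (fun p q => q ∈ C ∧ r p q) x z) with hZ
  have hZC : Z ⊆ C := filter_subset _ _
  have hZS : Z ∈ S := by
    rw [hS, mem_filter, mem_powerset]
    refine ⟨hZC.trans hCX, ⟨x, mem_filter.2 ⟨hx, Relation.ReflTransGen.refl⟩⟩, ?_⟩
    intro z hz y hy hzy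
    rw [hZ, mem_filter] at hz ⊢
    have hyC : y ∈ C := hCcl z hz.1 y hy hzy
    exact ⟨hyC, hz.2.tail ⟨hyC, hzy⟩⟩
  have hcard := hmin Z hZS
  have hZeq : Z = C := eq_of_subset_of_card_le hZC hcard
  have : x' ∈ Z := by rw [hZeq]; exact hx'
  rw [hZ, mem_filter] at this
  exact this.2

end Pool.Agent.Helper16.SX
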